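import Mathlib

/-!
# The Galois coniveau of a product of smooth projective varieties over a finite field

`H^*(X)` (coefficients extended to `ℚ̄_ℓ ≅ ℂ`), `X` smooth projective over the field with `q` elements, has a
basis of homogeneous elements indexed by `I`, the basis element `x` has degree `wt x`, in which the
Frobenius `F` is upper triangular, its eigenvalues are the `F x x`. An element of
`H^*(X)` is a function on `I`. For the product of the varieties `X k` the index set is the
product of the `I k`.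
-/

set_option autoImplicit false

namespace Pool.Agent.Helper48.KU

variable {I : Type} [Fintype I]

/-- `U ⊆ H^i(X)` is a subrepresentation such that `U(ν)` is effective of weight `i - 2ν`: `U` is stable
under the Frobenius, and for every eigenvalue `β` of the Frobenius on `U` both `β / q ^ ν` and
`q ^ (i - ν) / β = q ^ (i - 2ν) / (β / q ^ ν)` are algebraic integers. -/
structure IsEffective (q : ℕ) (wt : I → ℕ) (F : Matrix I I ℂ) (i ν : ℕ)
    (U : Submodule ℂ (I → ℂ)) : Prop where
  degree : ∀ u ∈ U, ∀ x, u x ≠ 0 → wt x = i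
  stable : ∀ u ∈ U, F.mulVec u ∈ U
  integral : ∀ u ∈ U, u ≠ 0 → ∀ β : ℂ, F.mulVec u = β • u →
    IsIntegral ℤ (β / (q : ℂ) ^ ν) ∧ IsIntegral ℤ ((q : ℂ) ^ (i - ν) / β)

/-- The Galois coniveau `N_ℓ^ν H^i(X)`: the span of all subrepresentations `U` of `H^i(X)` such that
`U(ν)` is effective of weight `i - 2ν`. -/
noncomputable def galoisConiveau (q : ℕ) (wt : I → ℕ) (F : Matrix I I ℂ) (i ν : ℕ) :
    Submodule ℂ (I → ℂ) := sSup {U | IsEffective q wt F i ν U}

/-- The properties of the Frobenius `F` on `H^*(X)`: the basis is homogeneous and `F` is in (upper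
triangular) Jordan form; the eigenvalues `α` on `H^j` are algebraic integers with
`α * conj α = q ^ j`. -/
structure IsFrobenius [PartialOrder I] (q : ℕ) (wt : I → ℕ) (F : Matrix I I ℂ) : Prop where
  jordan : ∀ x y, F x y ≠ 0 → x ≤ y ∧ wt x = wt y ∧ F x x = F y y
  integral : ∀ x, IsIntegral ℤ (F x x)
  weight : ∀ x, F x x * (starRingEnd ℂ) (F x x) = (q : ℂ) ^ wt x

/-- `X` is ordinary (its slopes are integers): at every place over `q` (valuation ring of `ℂ` in which `q`
is not invertible) every eigenvalue is a power of `q` times a unit. -/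
def IsOrdinary (q : ℕ) (F : Matrix I I ℂ) : Prop :=
  ∀ x, ∀ A : ValuationSubring ℂ, (q : ℂ)⁻¹ ∉ A → ∃ s : ℕ, A.valuation (F x x) = A.valuation ((q : ℂ) ^ s)

/-- The field generated by the eigenvalues of the Frobenius. -/
noncomputable def eigenfield (F : Matrix I I ℂ) : Subfield ℂ := Subfield.closure (Set.range fun x => F x x)

/-- The fields `L k` are independent over `q`: all places of the fields `L k` over `q` (given by valuation
rings `A k` of `ℂ` in which `q` is not invertible) are induced by one place of `ℂ` over `q`. This holds for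
linearly disjoint Galois extensions of `ℚ`, if `q` is a prime power. -/
def Independent {r : ℕ} (q : ℕ) (L : Fin r → Subfield ℂ) : Prop :=
  ∀ A : Fin r → ValuationSubring ℂ, (∀ k, (q : ℂ)⁻¹ ∉ A k) →
    ∃ B : ValuationSubring ℂ, (q : ℂ)⁻¹ ∉ B ∧ ∀ k, ∀ x ∈ L k, x ∈ B ↔ x ∈ A k

variable {r : ℕ} {J : Fin r → Type} [∀ k, Fintype (J k)]

/-- The degree on the cohomology of the product. -/
def prodWt (wt : ∀ k, J k → ℕ) (x : ∀ k, J k) : ℕ := ∑ k, wt k (x k)

/-- The Frobenius on the cohomology of the product. -/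
noncomputable def prodFrob (F : ∀ k, Matrix (J k) (J k) ℂ) : Matrix (∀ k, J k) (∀ k, J k) ℂ :=
  fun x y => ∏ k, F k (x k) (y k)

/-- The span of the external products of classes in `N_ℓ^(n k) H^(j k)(X k)`, with `∑ j k = i` and
`∑ n k = ν`. -/
noncomputable def convolution (q : ℕ) (wt : ∀ k, J k → ℕ) (F : ∀ k, Matrix (J k) (J k) ℂ)
    (i ν : ℕ) : Submodule ℂ ((∀ k, J k) → ℂ) :=
  Submodule.span ℂ {u | ∃ (j n : Fin r → ℕ) (w : ∀ k, J k → ℂ),
    (∀ k, w k ∈ galoisConiveau q (wt k) (F k) (j k) (n k)) ∧ ∑ k, j k = i ∧ ∑ k, n k = ν ∧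
      u = fun x => ∏ k, w k (x k)}

end Pool.Agent.Helper48.KU
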