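import Pool.Agent.Helper48.KU.Defs

/-!
# The Galois coniveau of a Frobenius in Jordan form
-/

set_option autoImplicit false

namespace Pool.Agent.Helper48.KU

open Module.End

variable {I : Type} [Fintype I]

/-- the Frobenius as a linear map -/
noncomputable def T (F : Matrix I I ℂ) : Module.End ℂ (I → ℂ) where
  toFun := F.mulVec
  map_add' := F.mulVec_add
  map_smul' := fun c u => F.mulVec_smul c u

lemma T_apply (F : Matrix I I ℂ) (u : I → ℂ) : T F u = F.mulVec u := rfl

lemma T_apply' (F : Matrix I I ℂ) (u : I → ℂ) (x : I) : T F u x = ∑ y, F x y * u y := rfl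

variable [PartialOrder I]

/-- Jordan form -/
def Jor (wt : I → ℕ) (F : Matrix I I ℂ) : Prop :=
  ∀ x y, F x y ≠ 0 → x ≤ y ∧ wt x = wt y ∧ F x x = F y y

omit [Fintype I] [PartialOrder I] in
/-- `x` contributes to `N^ν H^i` -/
def Good (q : ℕ) (wt : I → ℕ) (F : Matrix I I ℂ) (i ν : ℕ) (x : I) : Prop :=
  wt x = i ∧ IsIntegral ℤ (F x x / (q : ℂ) ^ ν) ∧ IsIntegral ℤ ((q : ℂ) ^ (i - ν) / F x x)

omit [Fintype I] [PartialOrder I] in
/-- The span of the good basis elements. -/
def good (q : ℕ) (wt : I → ℕ) (F : Matrix I I ℂ) (i ν : ℕ) : Submodule ℂ (I → ℂ) where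
  carrier := {u | ∀ x, u x ≠ 0 → Good q wt F i ν x}
  add_mem' := by
    intro a b ha hb z hz
    rw [Pi.add_apply] at hz
    by_cases h2 : a z = 0
    · exact hb z (fun h3 => hz (by rw [h2, h3, add_zero]))
    · exact ha z h2
  zero_mem' := fun z hz => absurd rfl hz
  smul_mem' := by
    intro c a ha z hz
    exact ha z (fun h3 => hz (by rw [Pi.smul_apply, h3, smul_zero]))

variable {F : Matrix I I ℂ} {wt : I → ℕ}

/-- the value of `F u` at a maximal element of the support -/
theorem apply_maximal (hj : Jor wt F) {u : I → ℂ} (h0 : u ≠ 0) :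
    ∃ y, u y ≠ 0 ∧ T F u y = F y y * u y := by
  classical
  obtain ⟨y0, hy0⟩ : ∃ y, u y ≠ 0 := by
    by_contra hcon
    push Not at hcon
    exact h0 (funext hcon)
  obtain ⟨y, hy1, hy2⟩ := (Finset.univ.filter fun y => u y ≠ 0).exists_maximal
    ⟨y0, Finset.mem_filter.2 ⟨Finset.mem_univ _, hy0⟩⟩
  have hy : u y ≠ 0 := (Finset.mem_filter.1 hy1).2
  refine ⟨y, hy, ?_⟩
  rw [T_apply']
  rw [Finset.sum_eq_single y]
  · intro z _ hz
    by_cases h2 : F y z = 0
    · rw [h2, zero_mul]
    · have h3 := (hj _ _ h2).1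
      by_cases h4 : u z = 0
      · rw [h4, mul_zero]
      · exact absurd (le_antisymm (hy2 (Finset.mem_filter.2 ⟨Finset.mem_univ z, h4⟩) h3) h3) hz
  · intro h2
    exact absurd (Finset.mem_univ y) h2

/-- the only eigenvalue on the part with diagonal entries `β` is `β` -/
theorem eig_unique (hj : Jor wt F) {u : I → ℂ} {β β' : ℂ}
    (hu : ∀ y, u y ≠ 0 → F y y = β) (h0 : u ≠ 0) (h : T F u = β' • u) : β' = β := by
  obtain ⟨y, hy, h1⟩ := apply_maximal hj h0
  rw [h, hu y hy, Pi.smul_apply, smul_eq_mul] at h1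
  exact mul_right_cancel₀ hy h1

/-- projection to the part with diagonal entries `β` -/
noncomputable def pr (F : Matrix I I ℂ) (β : ℂ) : Module.End ℂ (I → ℂ) := by
  classical
  exact
  { toFun := fun u y => if F y y = β then u y else 0
    map_add' := fun u v => by
      funext y
      simp only [Pi.add_apply]
      split_ifs <;> simp
    map_smul' := fun c u => by
      funext y
      simp only [Pi.smul_apply, smul_eq_mul, RingHom.id_apply]
      split_ifs <;> simp }

omit [PartialOrder I] in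
theorem pr_apply_of {β : ℂ} {u : I → ℂ} {y : I} (h : F y y = β) : pr F β u y = u y := by
  classical
  exact if_pos h

omit [PartialOrder I] in
theorem pr_apply_ne {β : ℂ} {u : I → ℂ} {y : I} (h : F y y ≠ β) : pr F β u y = 0 := by
  classical
  exact if_neg h

theorem pr_T (hj : Jor wt F) (β : ℂ) (u : I → ℂ) : pr F β (T F u) = T F (pr F β u) := by
  funext x
  by_cases hx : F x x = β
  · rw [pr_apply_of hx, T_apply', T_apply']
    refine Finset.sum_congr rfl fun y _ => ?_
    by_cases h : F x y = 0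
    · rw [h, zero_mul, zero_mul]
    · rw [pr_apply_of ((hj _ _ h).2.2.symm.trans hx)]
  · rw [pr_apply_ne hx, T_apply']
    symm
    refine Finset.sum_eq_zero fun y _ => ?_
    by_cases h : F x y = 0
    · rw [h, zero_mul]
    · rw [pr_apply_ne (fun h' => hx ((hj _ _ h).2.2.trans h')), mul_zero]

/-- an eigenvector below a generalised eigenvector -/
theorem exists_eigenvector {W : Type*} [AddCommGroup W] [Module ℂ W] (f : Module.End ℂ W) (μ : ℂ)
    (U : Submodule ℂ W) (hU : ∀ x ∈ U, f x ∈ U) : ∀ (k : ℕ) (v : W), v ∈ U → v ≠ 0 →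
    ((f - μ • (1 : Module.End ℂ W)) ^ k) v = 0 → ∃ w ∈ U, w ≠ 0 ∧ f w = μ • w := by
  intro k
  induction k with
  | zero =>
      intro v _ hv h
      rw [pow_zero, Module.End.one_apply] at h
      exact absurd h hv
  | succ k ih =>
      intro v hvU hv h
      by_cases h1 : (f - μ • (1 : Module.End ℂ W)) v = 0
      · refine ⟨v, hvU, hv, ?_⟩
        rw [LinearMap.sub_apply, LinearMap.smul_apply, Module.End.one_apply, sub_eq_zero] at h1
        exact h1
      · refine ih ((f - μ • (1 : Module.End ℂ W)) v) ?_ h1 ?_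
        · rw [LinearMap.sub_apply, LinearMap.smul_apply, Module.End.one_apply]
          exact U.sub_mem (hU v hvU) (U.smul_mem μ hvU)
        · rw [pow_succ, Module.End.mul_apply] at h
          exact h

/-- `T - μ` -/
noncomputable def Tm (F : Matrix I I ℂ) (μ : ℂ) : Module.End ℂ (I → ℂ) :=
  T F - μ • (1 : Module.End ℂ (I → ℂ))

theorem pow_pr (hj : Jor wt F) (β μ : ℂ) (k : ℕ) (u : I → ℂ) :
    pr F β ((Tm F μ ^ k) u) = (Tm F μ ^ k) (pr F β u) := by
  induction k generalizing u with
  | zero => rfl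
  | succ k ih =>
      rw [pow_succ, Module.End.mul_apply, Module.End.mul_apply, ih]
      congr 1
      unfold Tm
      rw [LinearMap.sub_apply, LinearMap.sub_apply, map_sub, pr_T hj, LinearMap.smul_apply,
        LinearMap.smul_apply, Module.End.one_apply, Module.End.one_apply, map_smul]

/-- a generalised eigenvector is supported on the part with diagonal entries `μ` -/
theorem gen_support (hj : Jor wt F) {μ : ℂ} {k : ℕ} {u : I → ℂ}
    (h : (Tm F μ ^ k) u = 0) {y : I} (hy : u y ≠ 0) : F y y = μ := by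
  have h1 := pow_pr hj (F y y) μ k u
  rw [h, map_zero] at h1
  let S : Submodule ℂ (I → ℂ) :=
    { carrier := {v | ∀ z, v z ≠ 0 → F z z = F y y}
      add_mem' := by
        intro a b ha hb z hz
        rw [Pi.add_apply] at hz
        by_cases h2 : a z = 0
        · exact hb z (fun h3 => hz (by rw [h2, h3, add_zero]))
        · exact ha z h2
      zero_mem' := fun z hz => absurd rfl hz
      smul_mem' := by
        intro c a ha z hz
        exact ha z (fun h3 => hz (by rw [Pi.smul_apply, h3, smul_zero])) }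
  have hS : ∀ x ∈ S, T F x ∈ S := by
    intro x hx z hz
    rw [T_apply'] at hz
    obtain ⟨z', -, h2⟩ := Finset.exists_ne_zero_of_sum_ne_zero hz
    exact (hj _ _ (left_ne_zero_of_mul h2)).2.2.trans (hx z' (right_ne_zero_of_mul h2))
  have hpS : pr F (F y y) u ∈ S := by
    intro z hz
    by_contra h2
    exact hz (pr_apply_ne h2)
  have hp0 : pr F (F y y) u ≠ 0 := by
    intro h2
    have h3 := congrFun h2 y
    rw [pr_apply_of rfl] at h3
    exact hy h3
  obtain ⟨w, hwS, hw0, hw⟩ := exists_eigenvector (T F) μ S hS k _ hpS hp0 h1.symm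
  exact (eig_unique hj hwS hw0 hw).symm

theorem effective_le (hj : Jor wt F) {q i ν : ℕ} {U : Submodule ℂ (I → ℂ)}
    (hU : IsEffective q wt F i ν U) : U ≤ good q wt F i ν := by
  intro u hu y hy
  have hst : ∀ x ∈ U, T F x ∈ U := hU.stable
  have h1 := Submodule.eq_iSup_inf_genEigenspace (p := U) (f := T F) ⊤ hst
    (Module.End.iSup_maxGenEigenspace_eq_top (T F))
  have h2 : u ∈ ⨆ μ, U ⊓ (T F).genEigenspace μ ⊤ := by
    rw [← h1]
    exact hu
  have key : ∀ v ∈ ⨆ μ, U ⊓ (T F).genEigenspace μ ⊤, v y ≠ 0 → ∃ w ∈ U, w ≠ 0 ∧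
      T F w = F y y • w := by
    intro v hv
    refine Submodule.iSup_induction _ (motive := fun v => v y ≠ 0 → ∃ w ∈ U, w ≠ 0 ∧
      T F w = F y y • w) hv ?_ ?_ ?_
    · intro μ x hx hxy
      obtain ⟨hx1, hx2⟩ := Submodule.mem_inf.1 hx
      obtain ⟨k, hk'⟩ := (Module.End.mem_maxGenEigenspace (T F) μ x).1 hx2
      have h3 := gen_support hj hk' hxy
      have h4 : x ≠ 0 := by
        intro h5
        rw [h5] at hxy
        exact hxy rfl
      rw [h3]
      exact exists_eigenvector (T F) μ U hst k x hx1 h4 hk'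
    · intro h3
      exact absurd rfl h3
    · intro a b ha hb hab
      by_cases h3 : a y = 0
      · refine hb fun h4 => hab ?_
        rw [Pi.add_apply, h3, h4, add_zero]
      · exact ha h3
  obtain ⟨w, hw, hw0, hw1⟩ := key u h2 hy
  have h3 := hU.integral w hw hw0 (F y y) hw1
  exact ⟨hU.degree u hu y hy, h3.1, h3.2⟩

/-- **The Galois coniveau is spanned by good basis elements.** -/
theorem galois_eq (hj : Jor wt F) (q i ν : ℕ) : galoisConiveau q wt F i ν = good q wt F i ν := by
  classical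
  apply le_antisymm
  · exact sSup_le fun U hU => effective_le hj hU
  · refine le_sSup ⟨fun u hu x hx => (hu x hx).1, ?_, ?_⟩
    · intro u hu x hx
      have hx' : ∑ y, F x y * u y ≠ 0 := hx
      obtain ⟨y, -, hy⟩ := Finset.exists_ne_zero_of_sum_ne_zero hx'
      obtain ⟨h1, h2, h3⟩ := hj x y (left_ne_zero_of_mul hy)
      obtain ⟨g1, g2, g3⟩ := hu y (right_ne_zero_of_mul hy)
      exact ⟨h2.trans g1, by rw [h3]; exact g2, by rw [h3]; exact g3⟩
    · intro u hu h0 β hβ
      obtain ⟨y, hy, h1⟩ := apply_maximal hj h0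
      rw [T_apply, hβ, Pi.smul_apply, smul_eq_mul] at h1
      have h5 : β = F y y := mul_right_cancel₀ hy h1
      rw [h5]
      exact (hu y hy).2

end Pool.Agent.Helper48.KU
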