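import Pool.Agent.Helper48.KU.Lin
import Pool.Agent.Helper35.GT.Val

/-!
# The Künneth formula for the Galois coniveau
-/

set_option autoImplicit false

namespace Pool.Agent.Helper48.KU

lemma isIntegral_of_forall {x : ℂ} (h : ∀ A : ValuationSubring ℂ, x ∈ A) : IsIntegral ℤ x :=
  Pool.Agent.Helper35.GT.isIntegral_iff.2 fun A => (A.valuation_le_one_iff x).2 (h A)

lemma mem_of_isIntegral {x : ℂ} (h : IsIntegral ℤ x) (A : ValuationSubring ℂ) : x ∈ A := by
  have h1 : IsIntegral A x := h.tower_top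
  obtain ⟨y, hy⟩ := IsIntegrallyClosed.isIntegral_iff.1 h1
  rw [← hy]
  exact y.2

section

variable {q : ℕ} (hq : 2 ≤ q)

include hq

lemma q0 : (q : ℂ) ≠ 0 := by
  have : q ≠ 0 := by omega
  exact_mod_cast this

/-- An eigenvalue divisible by `q ^ n` has weight at least `2 n`. -/
lemma two_le_weight {β : ℂ} {w n : ℕ} (hw : β * (starRingEnd ℂ) β = (q : ℂ) ^ w)
    (h : IsIntegral ℤ (β / (q : ℂ) ^ n)) : 2 * n ≤ w := by
  have hq0 := q0 hq
  by_contra hlt
  push Not at hlt
  have h2 : IsIntegral ℤ ((starRingEnd ℂ) (β / (q : ℂ) ^ n)) :=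
    h.map (starRingEnd ℂ).toIntAlgHom
  have h3 := h.mul h2
  have h4 : β / (q : ℂ) ^ n * (starRingEnd ℂ) (β / (q : ℂ) ^ n) =
      algebraMap ℚ ℂ ((q : ℚ) ^ w / (q : ℚ) ^ (2 * n)) := by
    rw [map_div₀, map_pow, Complex.conj_natCast]
    push_cast
    rw [← hw]
    field_simp
    ring
  rw [h4, isIntegral_algebraMap_iff (algebraMap ℚ ℂ).injective] at h3
  obtain ⟨z, hz⟩ := IsIntegrallyClosed.isIntegral_iff.1 h3
  have hq' : (0 : ℚ) < q := by exact_mod_cast (by omega : 0 < q)
  have h5 : (z : ℚ) * (q : ℚ) ^ (2 * n) = (q : ℚ) ^ w := by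
    have : (z : ℚ) = (q : ℚ) ^ w / (q : ℚ) ^ (2 * n) := by simpa using hz
    rw [this]
    field_simp
  have hpos : 0 < z := by
    have h6 : (0 : ℚ) < (z : ℚ) * (q : ℚ) ^ (2 * n) := by rw [h5]; positivity
    have h7 : (0 : ℚ) < z := pos_of_mul_pos_left h6 (by positivity)
    exact_mod_cast h7
  have h8 : (q : ℚ) ^ (2 * n) ≤ (q : ℚ) ^ w := by
    rw [← h5]
    have : (1 : ℚ) ≤ z := by exact_mod_cast hpos
    nlinarith [pow_pos hq' (2 * n)]
  have h9 : (q : ℚ) ^ w < (q : ℚ) ^ (2 * n) := by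
    apply pow_lt_pow_right₀ _ hlt
    exact_mod_cast (by omega : 1 < q)
  exact absurd h8 (not_le.2 h9)

lemma dual_integral {β : ℂ} {w n : ℕ} (hw : β * (starRingEnd ℂ) β = (q : ℂ) ^ w)
    (h : IsIntegral ℤ (β / (q : ℂ) ^ n)) : IsIntegral ℤ ((q : ℂ) ^ (w - n) / β) := by
  have hq0 := q0 hq
  have h1 := two_le_weight hq hw h
  have h2 : IsIntegral ℤ ((starRingEnd ℂ) (β / (q : ℂ) ^ n)) :=
    h.map (starRingEnd ℂ).toIntAlgHom
  have hβ : β ≠ 0 := by
    rintro rfl
    rw [zero_mul] at hw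
    exact pow_ne_zero w hq0 hw.symm
  have h3 : (starRingEnd ℂ) (β / (q : ℂ) ^ n) = (q : ℂ) ^ (w - n) / β := by
    rw [map_div₀, map_pow, Complex.conj_natCast, eq_div_iff hβ, div_mul_eq_mul_div,
      div_eq_iff (pow_ne_zero n hq0), ← pow_add, Nat.sub_add_cancel (by omega), ← hw, mul_comm]
  rw [← h3]
  exact h2

/-- The greatest power of `q` dividing an eigenvalue. -/
lemma exists_greatest {β : ℂ} {w : ℕ} (hw : β * (starRingEnd ℂ) β = (q : ℂ) ^ w)
    (hβ : IsIntegral ℤ β) : ∃ m : ℕ, (∀ n ≤ m, IsIntegral ℤ (β / (q : ℂ) ^ n)) ∧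
      ∃ A : ValuationSubring ℂ, (q : ℂ)⁻¹ ∉ A ∧ β / (q : ℂ) ^ (m + 1) ∉ A := by
  classical
  have hq0 := q0 hq
  set m := Nat.findGreatest (fun n => IsIntegral ℤ (β / (q : ℂ) ^ n)) w with hm
  have hm0 : IsIntegral ℤ (β / (q : ℂ) ^ m) := by
    refine Nat.findGreatest_spec (P := fun n => IsIntegral ℤ (β / (q : ℂ) ^ n))
      (Nat.zero_le w) ?_
    rw [pow_zero, div_one]
    exact hβ
  have hqi : IsIntegral ℤ (q : ℂ) := by
    have := isIntegral_algebraMap (R := ℤ) (A := ℂ) (x := (q : ℤ))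
    simpa using this
  refine ⟨m, fun n hn => ?_, ?_⟩
  · have h1 : β / (q : ℂ) ^ n = β / (q : ℂ) ^ m * (q : ℂ) ^ (m - n) := by
      rw [div_mul_eq_mul_div, div_eq_div_iff (pow_ne_zero _ hq0) (pow_ne_zero _ hq0), mul_assoc,
        ← pow_add, Nat.sub_add_cancel hn]
    rw [h1]
    exact hm0.mul (hqi.pow _)
  · have hnot : ¬ IsIntegral ℤ (β / (q : ℂ) ^ (m + 1)) := by
      intro h
      have h1 := two_le_weight hq hw h
      have h2 := Nat.le_findGreatest (P := fun n => IsIntegral ℤ (β / (q : ℂ) ^ n))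
        (by omega : m + 1 ≤ w) h
      omega
    have h1 : ∃ A : ValuationSubring ℂ, β / (q : ℂ) ^ (m + 1) ∉ A := by
      by_contra hcon
      push Not at hcon
      exact hnot (isIntegral_of_forall hcon)
    obtain ⟨A, hA⟩ := h1
    refine ⟨A, fun hqA => hA ?_, hA⟩
    rw [div_eq_mul_inv, ← inv_pow]
    exact mul_mem (mem_of_isIntegral hβ A) (pow_mem hqA _)

end

/-- Numbers below given ones with a given sum. -/
lemma exists_sum_eq {κ : Type*} [DecidableEq κ] (s : Finset κ) (m : κ → ℕ) :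
    ∀ ν ≤ ∑ k ∈ s, m k, ∃ n : κ → ℕ, (∀ k, n k ≤ m k) ∧ ∑ k ∈ s, n k = ν := by
  induction s using Finset.induction_on with
  | empty =>
    intro ν hν
    rw [Finset.sum_empty] at hν
    exact ⟨fun _ => 0, fun _ => Nat.zero_le _, by rw [Finset.sum_empty]; omega⟩
  | insert a s ha ih =>
    intro ν hν
    rw [Finset.sum_insert ha] at hν
    obtain ⟨n, hn, hs⟩ := ih (ν - min ν (m a)) (by omega)
    refine ⟨Function.update n a (min ν (m a)), fun k => ?_, ?_⟩
    · by_cases hk : k = a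
      · rw [hk, Function.update_self]; exact min_le_right _ _
      · rw [Function.update_of_ne hk]; exact hn k
    · rw [Finset.sum_insert ha, Function.update_self]
      have : ∑ k ∈ s, Function.update n a (min ν (m a)) k = ∑ k ∈ s, n k := by
        refine Finset.sum_congr rfl fun k hk => ?_
        rw [Function.update_of_ne (by rintro rfl; exact ha hk)]
      rw [this, hs]
      have := min_le_left ν (m a)
      omega

variable {r : ℕ} {J : Fin r → Type} [∀ k, Fintype (J k)] [∀ k, PartialOrder (J k)]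
  {q : ℕ} {wt : ∀ k, J k → ℕ} {F : ∀ k, Matrix (J k) (J k) ℂ}

omit [∀ k, Fintype (J k)] in
lemma jor_prod (hF : ∀ k, Jor (wt k) (F k)) : Jor (prodWt wt) (prodFrob F) := by
  intro x y h
  have h1 : ∀ k, F k (x k) (y k) ≠ 0 := fun k =>
    Finset.prod_ne_zero_iff.1 h k (Finset.mem_univ k)
  refine ⟨fun k => (hF k _ _ (h1 k)).1, Finset.sum_congr rfl fun k _ => (hF k _ _ (h1 k)).2.1,
    Finset.prod_congr rfl fun k _ => (hF k _ _ (h1 k)).2.2⟩

/-- The distribution of the coniveau. -/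
lemma distribute (hq : 2 ≤ q) (hF : ∀ k, IsFrobenius q (wt k) (F k))
    (hord : ∀ k l, k ≠ l → IsOrdinary q (F k) ∨ IsOrdinary q (F l))
    (hI : Independent q fun k => eigenfield (F k)) (y : ∀ k, J k) {ν : ℕ}
    (h : IsIntegral ℤ (prodFrob F y y / (q : ℂ) ^ ν)) :
    ∃ n : Fin r → ℕ, (∀ k, IsIntegral ℤ (F k (y k) (y k) / (q : ℂ) ^ n k)) ∧ ∑ k, n k = ν := by
  classical
  have hq0 := q0 hq
  choose m hm A hA1 hA2 using fun k => exists_greatest hq ((hF k).weight (y k))
    ((hF k).integral (y k))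
  obtain ⟨B, hB1, hB2⟩ := hI A hA1
  set v := B.valuation with hv
  have hvq1 : v (q : ℂ) < 1 := by
    have h1 : (1 : B.ValueGroup) < v ((q : ℂ)⁻¹) := by
      rw [← not_le, ValuationSubring.valuation_le_one_iff]
      exact hB1
    rw [map_inv₀] at h1
    exact (one_lt_inv₀ (by rw [zero_lt_iff]; exact (map_ne_zero v).2 hq0)).1 h1
  have hvq0 : 0 < v (q : ℂ) := by rw [zero_lt_iff]; exact (map_ne_zero v).2 hq0
  have hmem : ∀ k, F k (y k) (y k) / (q : ℂ) ^ (m k + 1) ∈ eigenfield (F k) := by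
    intro k
    refine div_mem (Subfield.subset_closure ⟨y k, rfl⟩) (pow_mem ?_ _)
    exact natCast_mem _ q
  have hgt : ∀ k, v (q : ℂ) ^ (m k + 1) < v (F k (y k) (y k)) := by
    intro k
    have h1 : F k (y k) (y k) / (q : ℂ) ^ (m k + 1) ∉ B := by
      rw [hB2 k _ (hmem k)]
      exact hA2 k
    rw [← ValuationSubring.valuation_le_one_iff, not_le, map_div₀, map_pow] at h1
    rwa [one_lt_div₀ (pow_pos hvq0 _)] at h1
  have hge : ∀ k, IsOrdinary q (F k) → v (q : ℂ) ^ (m k) ≤ v (F k (y k) (y k)) := by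
    intro k hk
    obtain ⟨s, hs⟩ := hk (y k) B hB1
    have h1 := hgt k
    rw [hs, map_pow] at h1 ⊢
    have h2 : s < m k + 1 := by
      by_contra h3
      push Not at h3
      exact absurd h1 (not_lt.2 (pow_le_pow_of_le_one (le_of_lt hvq0) (le_of_lt hvq1) h3))
    exact pow_le_pow_of_le_one (le_of_lt hvq0) (le_of_lt hvq1) (by omega)
  -- the product
  have hprod : v (q : ℂ) ^ (∑ k, m k + 1) < ∏ k, v (F k (y k) (y k)) := by
    by_cases hall : ∀ k, IsOrdinary q (F k)
    · calc v (q : ℂ) ^ (∑ k, m k + 1) < v (q : ℂ) ^ (∑ k, m k) :=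
            pow_lt_pow_right_of_lt_one₀ hvq0 hvq1 (Nat.lt_succ_self _)
        _ = ∏ k, v (q : ℂ) ^ (m k) := (Finset.prod_pow_eq_pow_sum _ _ _).symm
        _ ≤ _ := Finset.prod_le_prod' fun k _ => hge k (hall k)
    · push Not at hall
      obtain ⟨k₀, hk₀⟩ := hall
      have ho : ∀ k, k ≠ k₀ → IsOrdinary q (F k) := fun k hk =>
        (hord k k₀ hk).resolve_right hk₀
      rw [← Finset.mul_prod_erase Finset.univ _ (Finset.mem_univ k₀),
        ← Finset.add_sum_erase Finset.univ _ (Finset.mem_univ k₀)]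
      have h1 : v (q : ℂ) ^ (∑ k ∈ Finset.univ.erase k₀, m k) ≤
          ∏ k ∈ Finset.univ.erase k₀, v (F k (y k) (y k)) := by
        rw [← Finset.prod_pow_eq_pow_sum]
        exact Finset.prod_le_prod' fun k hk => hge k (ho k (Finset.ne_of_mem_erase hk))
      calc v (q : ℂ) ^ (m k₀ + ∑ k ∈ Finset.univ.erase k₀, m k + 1)
          = v (q : ℂ) ^ (m k₀ + 1) * v (q : ℂ) ^ (∑ k ∈ Finset.univ.erase k₀, m k) := by
            rw [← pow_add]; congr 1; ring
        _ < v (F k₀ (y k₀) (y k₀)) * v (q : ℂ) ^ (∑ k ∈ Finset.univ.erase k₀, m k) :=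
            mul_lt_mul_of_pos_right (hgt k₀) (pow_pos hvq0 _)
        _ ≤ _ := mul_le_mul_right h1 _
  have hle : ∏ k, v (F k (y k) (y k)) ≤ v (q : ℂ) ^ ν := by
    have h1 := mem_of_isIntegral h B
    rw [← ValuationSubring.valuation_le_one_iff, map_div₀, map_pow] at h1
    have h2 : v (prodFrob F y y) = ∏ k, v (F k (y k) (y k)) := by
      unfold prodFrob
      rw [map_prod]
    rw [← h2]
    exact (div_le_one₀ (pow_pos hvq0 _)).1 h1
  have hν : ν ≤ ∑ k, m k := by
    by_contra hcon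
    push Not at hcon
    have h1 := hprod.trans_le hle
    exact absurd h1 (not_lt.2 (pow_le_pow_of_le_one (le_of_lt hvq0) (le_of_lt hvq1) hcon))
  obtain ⟨n, hn, hs⟩ := exists_sum_eq Finset.univ m ν hν
  exact ⟨n, fun k => hm k _ (hn k), hs⟩

/-- **Künneth formula.** -/
theorem kunneth (hq : 2 ≤ q) (hF : ∀ k, IsFrobenius q (wt k) (F k))
    (hord : ∀ k l, k ≠ l → IsOrdinary q (F k) ∨ IsOrdinary q (F l))
    (hI : Independent q fun k => eigenfield (F k)) (i ν : ℕ) :
    galoisConiveau q (prodWt wt) (prodFrob F) i ν = convolution q wt F i ν := by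
  classical
  have hq0 := q0 hq
  have hj : ∀ k, Jor (wt k) (F k) := fun k => (hF k).jordan
  rw [galois_eq (jor_prod hj)]
  apply le_antisymm
  · intro u hu
    have h1 : u = ∑ y, u y • (Pi.single y 1 : (∀ k, J k) → ℂ) := by
      funext x
      rw [Finset.sum_apply, Finset.sum_eq_single x]
      · simp
      · intro y _ hy
        rw [Pi.smul_apply, Pi.single_eq_of_ne (Ne.symm hy), smul_zero]
      · intro h
        exact absurd (Finset.mem_univ x) h
    rw [h1]
    refine Submodule.sum_mem _ fun y _ => ?_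
    by_cases h2 : u y = 0
    · rw [h2, zero_smul]
      exact Submodule.zero_mem _
    · refine Submodule.smul_mem _ _ ?_
      obtain ⟨g1, g2, g3⟩ := hu y h2
      obtain ⟨n, hn, hs⟩ := distribute hq hF hord hI y g2
      refine Submodule.subset_span ⟨fun k => wt k (y k), n,
        fun k => Pi.single (y k) 1, fun k => ?_, g1, hs, ?_⟩
      · rw [galois_eq (hj k)]
        intro x hx
        have hxy : x = y k := by
          by_contra hne
          exact hx (Pi.single_eq_of_ne hne _)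
        rw [hxy]
        exact ⟨rfl, hn k, dual_integral hq ((hF k).weight (y k)) (hn k)⟩
      · funext x
        by_cases hxy : x = y
        · rw [hxy, Pi.single_eq_same]
          symm
          exact Finset.prod_eq_one fun k _ => Pi.single_eq_same (y k) 1
        · rw [Pi.single_eq_of_ne hxy]
          symm
          obtain ⟨k, hk⟩ := Function.ne_iff.1 hxy
          exact Finset.prod_eq_zero (Finset.mem_univ k) (Pi.single_eq_of_ne hk _)
  · refine Submodule.span_le.2 ?_
    rintro _ ⟨j, n, w, hw, rfl, rfl, rfl⟩ x hx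
    have hx' : ∀ k, w k (x k) ≠ 0 := fun k =>
      Finset.prod_ne_zero_iff.1 hx k (Finset.mem_univ k)
    have hg : ∀ k, Good q (wt k) (F k) (j k) (n k) (x k) := by
      intro k
      have := hw k
      rw [galois_eq (hj k)] at this
      exact this (x k) (hx' k)
    have hle : ∀ k, n k ≤ j k := by
      intro k
      have h1 := two_le_weight hq ((hF k).weight (x k)) (hg k).2.1
      rw [(hg k).1] at h1
      omega
    refine ⟨Finset.sum_congr rfl fun k _ => (hg k).1, ?_, ?_⟩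
    · have h1 : prodFrob F x x / (q : ℂ) ^ (∑ k, n k) =
          ∏ k, (F k (x k) (x k) / (q : ℂ) ^ n k) := by
        unfold prodFrob
        rw [Finset.prod_div_distrib, Finset.prod_pow_eq_pow_sum]
      rw [h1]
      exact IsIntegral.prod _ fun k _ => (hg k).2.1
    · have h1 : (q : ℂ) ^ (∑ k, j k - ∑ k, n k) / prodFrob F x x =
          ∏ k, ((q : ℂ) ^ (j k - n k) / F k (x k) (x k)) := by
        unfold prodFrob
        rw [Finset.prod_div_distrib, Finset.prod_pow_eq_pow_sum]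
        congr 2
        rw [Finset.sum_tsub_distrib _ fun k _ => hle k]
      rw [h1]
      exact IsIntegral.prod _ fun k _ => (hg k).2.2

end Pool.Agent.Helper48.KU
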